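import Mathlib
import Pool.Agent.H374R2.Z.Glue

namespace Pool.Agent.Results.MP_2ec8a3_nt.AlmostAllRadicals

/-- the radical of `n`: the product of the distinct primes dividing `n` -/
def rad (n : ℕ) : ℕ := ∏ p ∈ n.primeFactors, p

/-- `(a, b, c)` is an abc-triple: pairwise coprime positive integers with `a + b = c` -/
def IsABCTriple (a b c : ℕ) : Prop :=
  0 < a ∧ 0 < b ∧ 0 < c ∧ Nat.Coprime a b ∧ Nat.Coprime a c ∧ Nat.Coprime b c ∧ a + b = c

/-- the integers `r ≤ X` which are the radical `rad (abc)` of some abc-triple -/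
def Radicals (X : ℕ) : Set ℕ :=
  {r | r ≤ X ∧ ∃ a b c : ℕ, IsABCTriple a b c ∧ rad (a * b * c) = r}

/-- the integers `r ≤ X` which are the radical `rad (abc)` of some abc-triple violating
`c < rad (abc) ^ M` -/
def BadRadicals (M : ℝ) (X : ℕ) : Set ℕ :=
  {r | r ≤ X ∧ ∃ a b c : ℕ, IsABCTriple a b c ∧ rad (a * b * c) = r ∧
    (rad (a * b * c) : ℝ) ^ M ≤ (c : ℝ)}

theorem radicals_sub (X : ℕ) :
    Radicals X ⊆ {n | n ≤ X ∧ Pool.Agent.H374R2.Z.IsRad n} := by
  rintro r ⟨hr, a, b, c, ⟨ha, hb, hc, hab, hac, hbc, habc⟩, hrad⟩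
  subst habc
  exact ⟨hr, a, b, ha, hb, hab, hrad⟩

/-- For every `ε > 0` there is `C` such that for all `X ≥ 2` at most `C * X / (log X) ^ (1 - ε)`
integers `r ≤ X` are radicals of abc-triples (of any height); so for every `M` at most that many
`r ≤ X` are radicals of abc-triples violating `c < rad (abc) ^ M`. -/
theorem result (ε : ℝ) (hε : 0 < ε) :
    ∃ C : ℝ, ∀ X : ℕ, 2 ≤ X →
      (Radicals X).Finite ∧
      ((Radicals X).ncard : ℝ) ≤ C * X / Real.log X ^ (1 - ε) ∧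
      ∀ M : ℝ, BadRadicals M X ⊆ Radicals X ∧
        ((BadRadicals M X).ncard : ℝ) ≤ C * X / Real.log X ^ (1 - ε) := by
  obtain ⟨C, hC0, hC⟩ := Pool.Agent.H374R2.Z.final hε
  refine ⟨C, fun X hX => ?_⟩
  have hfin' : {n | n ≤ X ∧ Pool.Agent.H374R2.Z.IsRad n}.Finite :=
    (Set.finite_Iic X).subset (fun n hn => hn.1)
  have hfin : (Radicals X).Finite := hfin'.subset (radicals_sub X)
  have h1 : ((Radicals X).ncard : ℝ) ≤ C * X / Real.log X ^ (1 - ε) := by
    refine le_trans ?_ (hC X hX)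
    exact_mod_cast Set.ncard_le_ncard (radicals_sub X) hfin'
  refine ⟨hfin, h1, fun M => ?_⟩
  have hsub : BadRadicals M X ⊆ Radicals X := by
    rintro r ⟨hr, a, b, c, habc, hrad, _⟩
    exact ⟨hr, a, b, c, habc, hrad⟩
  refine ⟨hsub, le_trans ?_ h1⟩
  exact_mod_cast Set.ncard_le_ncard hsub hfin

end Pool.Agent.Results.MP_2ec8a3_nt.AlmostAllRadicals
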